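import Pool.Agent.W661.RC.Stm

/-!
# RC-DAR: the transition region of the resolvents has small mass (potential argument)
-/

set_option autoImplicit false

namespace Pool.Agent.W179.RC

open Matrix Pool.Agent.W661.RC
open scoped ComplexOrder

section basic

variable {d : ℕ}

theorem tr_add (a b : Mt d) : tr (a + b) = tr a + tr b := by
  unfold tr; rw [trace_add, Complex.add_re]

theorem tr_sub (a b : Mt d) : tr (a - b) = tr a - tr b := by
  unfold tr; rw [trace_sub, Complex.sub_re]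

theorem tr_smul (c : ℝ) (a : Mt d) : tr ((c : ℂ) • a) = c * tr a := by
  unfold tr; rw [trace_smul, smul_eq_mul, Complex.re_ofReal_mul]

theorem tr_cyc (a b : Mt d) : tr (a * b) = tr (b * a) := by
  unfold tr; rw [trace_mul_comm]

theorem tr_nonneg {a : Mt d} (h : a.PosSemidef) : 0 ≤ tr a :=
  (Complex.le_def.1 h.trace_nonneg).1

theorem psd_sq (a : Mt d) : (aᴴ * a).PosSemidef := posSemidef_conjTranspose_mul_self a

open scoped MatrixOrder Matrix.Norms.L2Operator in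
theorem exists_sq {b : Mt d} (hb : b.PosSemidef) : ∃ c : Mt d, b = cᴴ * c := by
  obtain ⟨c, hc⟩ := CStarAlgebra.nonneg_iff_eq_star_mul_self.mp hb.nonneg
  exact ⟨c, hc⟩

theorem tr_mul_nonneg {a b : Mt d} (ha : a.PosSemidef) (hb : b.PosSemidef) : 0 ≤ tr (a * b) := by
  obtain ⟨c, rfl⟩ := exists_sq hb
  rw [← mul_assoc, tr_cyc, ← mul_assoc]
  exact tr_nonneg (ha.mul_mul_conjTranspose_same c)

theorem psd_smul {a : Mt d} (ha : a.PosSemidef) {c : ℝ} (hc : 0 ≤ c) :
    ((c : ℂ) • a).PosSemidef :=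
  ha.smul (Complex.zero_le_real.2 hc)

theorem psd_pr {p : Mt d} (hp : IsPr p) : p.PosSemidef := by
  have := psd_sq p
  rwa [hp.1, hp.2] at this

theorem psd_conj {a b : Mt d} (ha : a.PosSemidef) (hb : bᴴ = b) : (b * a * b).PosSemidef := by
  have := ha.mul_mul_conjTranspose_same b
  rwa [hb] at this

theorem inv_anti {A B A' B' : Mt d} (hA1 : A' * A = 1) (hA2 : A * A' = 1) (hB1 : B' * B = 1)
    (hB2 : B * B' = 1) (hBs : B'ᴴ = B') (hA : A'.PosSemidef) (h : (B - A).PosSemidef) :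
    (A' - B').PosSemidef := by
  have e : A' - B' = B' * (B - A) * B' + (B' * (B - A)) * A' * ((B - A) * B') := by
    have e1 : B' * (B - A) = 1 - B' * A := by rw [mul_sub, hB1]
    have e2 : (B - A) * B' = 1 - A * B' := by rw [sub_mul, hB2]
    rw [e1, e2]
    have : (1 - B' * A) * B' + (1 - B' * A) * A' * (1 - A * B') =
        B' - B' * A * B' + (A' - (A' * A) * B' - B' * (A * A') + B' * (A * A') * A * B') := by
      noncomm_ring
    rw [this, hA1, hA2]
    noncomm_ring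
  rw [e]
  refine PosSemidef.add ?_ ?_
  · exact psd_conj h hBs
  · have := hA.mul_mul_conjTranspose_same (B' * (B - A))
    rwa [conjTranspose_mul, hBs, h.1.eq] at this

variable {Q : Mt d} {lam : ℝ}

theorem g_pd (hQ : Q.PosSemidef) (hl : 0 ≤ lam) : (1 + (lam : ℂ) • Q).PosDef :=
  PosDef.one.add_posSemidef (psd_smul hQ hl)

theorem g_l (hQ : Q.PosSemidef) (hl : 0 ≤ lam) : gg lam Q * (1 + (lam : ℂ) • Q) = 1 :=
  nonsing_inv_mul _ ((Matrix.isUnit_iff_isUnit_det _).1 (g_pd hQ hl).isUnit)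

theorem g_r (hQ : Q.PosSemidef) (hl : 0 ≤ lam) : (1 + (lam : ℂ) • Q) * gg lam Q = 1 :=
  mul_nonsing_inv _ ((Matrix.isUnit_iff_isUnit_det _).1 (g_pd hQ hl).isUnit)

theorem g_psd (hQ : Q.PosSemidef) (hl : 0 ≤ lam) : (gg lam Q).PosSemidef :=
  (g_pd hQ hl).inv.posSemidef

theorem g_star (hQ : Q.PosSemidef) (hl : 0 ≤ lam) : (gg lam Q)ᴴ = gg lam Q :=
  (g_psd hQ hl).1.eq

theorem h_eq1 (hQ : Q.PosSemidef) (hl : 0 ≤ lam) : (lam : ℂ) • (gg lam Q * Q) = hh lam Q := by
  have := g_l hQ hl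
  rw [mul_add, mul_one, mul_smul_comm] at this
  unfold hh
  rw [← this]; abel

theorem h_eq2 (hQ : Q.PosSemidef) (hl : 0 ≤ lam) : (lam : ℂ) • (Q * gg lam Q) = hh lam Q := by
  have := g_r hQ hl
  rw [add_mul, one_mul, smul_mul_assoc] at this
  unfold hh
  rw [← this]; abel

theorem gg_anti_Q {Q' : Mt d} (hQ : Q.PosSemidef) (hQ' : Q'.PosSemidef) (hl : 0 ≤ lam)
    (h : (Q' - Q).PosSemidef) : (gg lam Q - gg lam Q').PosSemidef := by
  refine inv_anti (g_l hQ hl) (g_r hQ hl) (g_l hQ' hl) (g_r hQ' hl) (g_star hQ' hl) (g_psd hQ hl) ?_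
  have : 1 + (lam : ℂ) • Q' - (1 + (lam : ℂ) • Q) = (lam : ℂ) • (Q' - Q) := by
    rw [smul_sub]; abel
  rw [this]
  exact psd_smul h hl

theorem gg_anti_lam {mu : ℝ} (hQ : Q.PosSemidef) (hl : 0 ≤ lam) (h : lam ≤ mu) :
    (gg lam Q - gg mu Q).PosSemidef := by
  have hm : 0 ≤ mu := hl.trans h
  refine inv_anti (g_l hQ hl) (g_r hQ hl) (g_l hQ hm) (g_r hQ hm) (g_star hQ hm) (g_psd hQ hl) ?_
  have : 1 + (mu : ℂ) • Q - (1 + (lam : ℂ) • Q) = ((mu - lam : ℝ) : ℂ) • Q := by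
    rw [Complex.ofReal_sub, sub_smul]; abel
  rw [this]
  exact psd_smul hQ (by linarith)

theorem gg_zero (Q : Mt d) : gg 0 Q = 1 := by
  unfold gg
  simp

theorem h_psd (hQ : Q.PosSemidef) (hl : 0 ≤ lam) : (hh lam Q).PosSemidef := by
  have := gg_anti_lam hQ le_rfl hl
  rwa [gg_zero] at this

theorem g_le_one (hQ : Q.PosSemidef) (hl : 0 ≤ lam) : (1 - gg lam Q).PosSemidef := h_psd hQ hl

theorem gh_eq (hQ : Q.PosSemidef) (hl : 0 ≤ lam) :
    gg lam Q * hh lam Q = (lam : ℂ) • (gg lam Q * Q * gg lam Q) := by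
  rw [← h_eq2 hQ hl, mul_smul_comm, ← mul_assoc]

theorem gh_psd (hQ : Q.PosSemidef) (hl : 0 ≤ lam) : (gg lam Q * hh lam Q).PosSemidef := by
  rw [gh_eq hQ hl]
  exact psd_smul (psd_conj hQ (g_star hQ hl)) hl

/-- telescoping: `g h ≤ 2 (h(2μ) - h(μ))` at `2μ` -/
theorem gh_tel {mu : ℝ} (hQ : Q.PosSemidef) (hm : 0 ≤ mu) :
    (((2 : ℝ) : ℂ) • (hh (2 * mu) Q - hh mu Q) - gg (2 * mu) Q * hh (2 * mu) Q).PosSemidef := by
  have hm2 : 0 ≤ 2 * mu := by linarith
  obtain ⟨a, ha⟩ : ∃ a, a = gg mu Q := ⟨_, rfl⟩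
  obtain ⟨b, hb⟩ : ∃ b, b = gg (2 * mu) Q := ⟨_, rfl⟩
  have ha1 := g_l hQ hm
  have ha2 := g_r hQ hm
  have hb1 := g_l hQ hm2
  have hb2 := g_r hQ hm2
  rw [← ha] at ha1 ha2
  rw [← hb] at hb1 hb2
  have hc : ((2 * mu : ℝ) : ℂ) = (mu : ℂ) + (mu : ℂ) := by push_cast; ring
  rw [hc, add_smul] at hb1 hb2
  have e1 : a - b = (mu : ℂ) • (a * Q * b) := by
    calc a - b = a * (1 + ((mu : ℂ) • Q + (mu : ℂ) • Q)) * b - a * (1 + (mu : ℂ) • Q) * b := by
          rw [mul_assoc a, hb2, mul_one, ha1, one_mul]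
      _ = a * ((mu : ℂ) • Q) * b := by noncomm_ring
      _ = _ := by rw [mul_smul_comm, smul_mul_assoc]
  have e2 : a - b = (mu : ℂ) • (b * Q * a) := by
    calc a - b = b * (1 + ((mu : ℂ) • Q + (mu : ℂ) • Q)) * a - b * ((1 + (mu : ℂ) • Q) * a) := by
          rw [hb1, one_mul, ha2, mul_one]
      _ = b * ((mu : ℂ) • Q) * a := by noncomm_ring
      _ = _ := by rw [mul_smul_comm, smul_mul_assoc]
  have e3 : hh (2 * mu) Q - hh mu Q = a - b := by
    unfold hh
    rw [← ha, ← hb]; abel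
  have e4 : gg (2 * mu) Q * hh (2 * mu) Q = ((2 : ℝ) : ℂ) • ((mu : ℂ) • (b * Q * b)) := by
    rw [gh_eq hQ hm2, ← hb, smul_smul]
    congr 1
    push_cast
    ring
  rw [e3, e4, ← smul_sub]
  refine psd_smul ?_ (by norm_num)
  have e5 : a - b - (mu : ℂ) • (b * Q * b) = (mu : ℂ) • ((mu : ℂ) • (b * Q * a * Q * b)) := by
    calc a - b - (mu : ℂ) • (b * Q * b) = (mu : ℂ) • ((a - b) * Q * b) := by
          rw [sub_mul, sub_mul, smul_sub, ← e1]
      _ = _ := by
          rw [e2, smul_mul_assoc, smul_mul_assoc]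
  rw [e5]
  refine psd_smul (psd_smul ?_ hm) hm
  have hapsd : a.PosSemidef := ha ▸ g_psd hQ hm
  have hbs : bᴴ = b := hb ▸ g_star hQ hm2
  have := hapsd.mul_mul_conjTranspose_same (b * Q)
  rw [conjTranspose_mul, hbs, hQ.1.eq] at this
  have e6 : b * Q * a * Q * b = b * Q * a * (Q * b) := by noncomm_ring
  rw [e6]
  exact this

theorem tr_gh_tel {mu : ℝ} {F : Mt d} (hQ : Q.PosSemidef) (hm : 0 ≤ mu) (hF : F.PosSemidef) :
    tr (gg (2 * mu) Q * hh (2 * mu) Q * F) ≤ 2 * (tr (hh (2 * mu) Q * F) - tr (hh mu Q * F)) := by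
  have := tr_mul_nonneg (gh_tel hQ hm) hF
  rw [sub_mul, smul_mul_assoc, sub_mul, tr_sub, tr_smul, tr_sub] at this
  linarith

/-- the basic identity -/
theorem key {p : Mt d} (hQ : Q.PosSemidef) (hp : IsPr p) (hl : 0 ≤ lam) :
    tr p - tr (gg lam Q - gg lam (Q + p)) = tr (gg lam (p * gg lam Q * p) * p) +
      lam * tr (gg lam (p * gg lam Q * p) * (p * (gg lam Q * hh lam Q) * p)) := by
  have hQp : (Q + p).PosSemidef := hQ.add (psd_pr hp)
  have hX : (p * gg lam Q * p).PosSemidef := psd_conj (g_psd hQ hl) hp.1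
  obtain ⟨g, hg⟩ : ∃ g, g = gg lam Q := ⟨_, rfl⟩
  obtain ⟨g', hg'⟩ : ∃ g', g' = gg lam (Q + p) := ⟨_, rfl⟩
  obtain ⟨X, hXd⟩ : ∃ X, X = p * gg lam Q * p := ⟨_, rfl⟩
  obtain ⟨R, hR⟩ : ∃ R, R = gg lam X := ⟨_, rfl⟩
  obtain ⟨c, hc⟩ : ∃ c : ℂ, c = (lam : ℂ) := ⟨_, rfl⟩
  have hX' : X.PosSemidef := hXd ▸ hX
  have a1 := g_l hQ hl
  have a2 := g_r hQ hl
  have b1 := g_l hQp hl
  have r1 := g_l hX' hl
  have r2 := g_r hX' hl
  rw [← hg, ← hc] at a1 a2
  rw [← hg', ← hc] at b1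
  rw [← hR, ← hc] at r1 r2
  rw [← hXd, ← hR, ← hg']
  rw [← hg] at hXd ⊢
  have hXp : X * p = X := by rw [hXd, mul_assoc, hp.2]
  have hpX : p * X = X := by rw [hXd, ← mul_assoc, ← mul_assoc, hp.2]
  -- `R` commutes with `p`
  have hRp : R * p = p * R := by
    calc R * p = R * p * ((1 + c • X) * R) := by rw [r2, mul_one]
      _ = R * (p + c • (p * X)) * R := by
          rw [← mul_assoc, mul_assoc R p, mul_add, mul_one, mul_smul_comm]
      _ = R * (p + c • (X * p)) * R := by rw [hpX, hXp]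
      _ = R * (1 + c • X) * p * R := by
          rw [mul_assoc R (1 + c • X) p, add_mul, one_mul, smul_mul_assoc]
      _ = p * R := by rw [r1, one_mul]
  -- resolvent identity
  have e1 : g - g' = c • (g' * p * g) := by
    calc g - g' = g' * (1 + c • (Q + p)) * g - g' * ((1 + c • Q) * g) := by
          rw [b1, one_mul, a2, mul_one]
      _ = g' * (c • p) * g := by rw [smul_add]; noncomm_ring
      _ = _ := by rw [mul_smul_comm, smul_mul_assoc]
  have e2 : g' * p * (1 + c • X) = g * p := by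
    have h1 : g' * p * (1 + c • X) = g' * p + (c • (g' * p * g)) * p := by
      rw [mul_add, mul_one, mul_smul_comm, smul_mul_assoc, hXd]
      congr 2
      calc g' * p * (p * g * p) = g' * (p * p) * g * p := by noncomm_ring
        _ = _ := by rw [hp.2]
    rw [h1, ← e1]
    noncomm_ring
  have e3 : g' * p = g * p * R := by
    calc g' * p = g' * p * ((1 + c • X) * R) := by rw [r2, mul_one]
      _ = g' * p * (1 + c • X) * R := by simp only [mul_assoc]
      _ = _ := by rw [e2]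
  have hhg : hh lam Q = 1 - g := by rw [hg]; rfl
  have e4 : tr (g - g') = lam * tr (R * (p * (g * g) * p)) := by
    rw [e1, hc, tr_smul, e3]
    congr 1
    calc tr (g * p * R * g) = tr (g * (p * R) * g) := by rw [mul_assoc g p R]
      _ = tr (g * (R * p) * g) := by rw [hRp]
      _ = tr (g * (R * (p * p)) * g) := by rw [hp.2]
      _ = tr ((g * (R * p)) * (p * g)) := by congr 1; noncomm_ring
      _ = tr ((p * g) * (g * (R * p))) := tr_cyc _ _
      _ = tr ((p * g) * (g * (p * R))) := by rw [hRp]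
      _ = tr ((p * (g * g) * p) * R) := by congr 1; noncomm_ring
      _ = _ := tr_cyc _ _
  have e5 : p * (g * g) * p = X - p * (g * hh lam Q) * p := by
    rw [hhg, hXd]; noncomm_ring
  have e6 : lam * tr (R * X) = tr p - tr (R * p) := by
    rw [← tr_smul, ← hc]
    have h1 : c • (R * X) = (1 - R) * p := by
      have h2 : c • (R * X) = 1 - R := by
        rw [← r1, mul_add, mul_one, mul_smul_comm]; abel
      calc c • (R * X) = c • (R * (X * p)) := by rw [hXp]
        _ = (c • (R * X)) * p := by rw [smul_mul_assoc, mul_assoc]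
        _ = _ := by rw [h2]
    rw [h1, sub_mul, one_mul, tr_sub]
  rw [e4, e5, mul_sub, tr_sub]
  linarith

theorem tr_Rp_nonneg {p X : Mt d} (hX : X.PosSemidef) (hp : IsPr p) (hl : 0 ≤ lam) :
    0 ≤ tr (gg lam X * p) := tr_mul_nonneg (g_psd hX hl) (psd_pr hp)

/-- lower bound -/
theorem lower {f : Mt d} (hQ : Q.PosSemidef) (hf : IsPr f) (hl : 1 ≤ lam) :
    1 / 2 * tr (gg lam Q * hh lam Q * f) ≤ tr f - tr (gg lam Q - gg lam (Q + f)) := by
  have hl0 : 0 ≤ lam := by linarith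
  rw [key hQ hf hl0]
  have hgh := gh_psd hQ hl0
  have hX : (f * gg lam Q * f).PosSemidef := psd_conj (g_psd hQ hl0) hf.1
  have hB : (f * (gg lam Q * hh lam Q) * f).PosSemidef := psd_conj hgh hf.1
  have h1 := tr_Rp_nonneg hX hf hl0
  -- `X ≤ 1`
  have hX1 : (1 - f * gg lam Q * f).PosSemidef := by
    have : 1 - f * gg lam Q * f = (1 - f) + f * (1 - gg lam Q) * f := by
      have : f * (1 - gg lam Q) * f = f * f - f * gg lam Q * f := by noncomm_ring
      rw [this, hf.2]; abel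
    rw [this]
    refine PosSemidef.add ?_ (psd_conj (g_le_one hQ hl0) hf.1)
    refine psd_pr ⟨by rw [conjTranspose_sub, conjTranspose_one, hf.1], ?_⟩
    have : (1 - f) * (1 - f) = 1 - f - f + f * f := by noncomm_ring
    rw [this, hf.2]; abel
  -- `R ≥ 1 / (1 + lam)`
  have hR : (gg lam (f * gg lam Q * f) - (((1 + lam)⁻¹ : ℝ) : ℂ) • (1 : Mt d)).PosSemidef := by
    have hne : ((1 + lam : ℝ) : ℂ) ≠ 0 := by
      have : (1 + lam : ℝ) ≠ 0 := by linarith
      exact_mod_cast this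
    refine inv_anti (A := 1 + (lam : ℂ) • (f * gg lam Q * f)) (B := ((1 + lam : ℝ) : ℂ) • (1 : Mt d))
      (g_l hX hl0) (g_r hX hl0) ?_ ?_ ?_ (g_psd hX hl0) ?_
    · rw [smul_mul_smul_comm, mul_one, Complex.ofReal_inv, inv_mul_cancel₀ hne, one_smul]
    · rw [smul_mul_smul_comm, mul_one, Complex.ofReal_inv, mul_inv_cancel₀ hne, one_smul]
    · rw [conjTranspose_smul, conjTranspose_one]
      congr 1
      exact Complex.conj_ofReal _
    · have : ((1 + lam : ℝ) : ℂ) • (1 : Mt d) - (1 + (lam : ℂ) • (f * gg lam Q * f)) =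
          (lam : ℂ) • (1 - f * gg lam Q * f) := by
        rw [Complex.ofReal_add, Complex.ofReal_one, add_smul, one_smul, smul_sub]; abel
      rw [this]
      exact psd_smul hX1 hl0
  have h2 := tr_mul_nonneg hR hB
  rw [sub_mul, tr_sub, smul_mul_assoc, one_mul, tr_smul] at h2
  have hBt : tr (f * (gg lam Q * hh lam Q) * f) = tr (gg lam Q * hh lam Q * f) := by
    rw [tr_cyc, ← mul_assoc, hf.2, tr_cyc]
  rw [hBt] at h2
  have h3 : 0 ≤ tr (gg lam Q * hh lam Q * f) := tr_mul_nonneg hgh (psd_pr hf)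
  have h4 : 1 / 2 ≤ lam * (1 + lam)⁻¹ := by
    rw [← div_eq_mul_inv, le_div_iff₀ (by linarith)]; linarith
  have h5 : lam * ((1 + lam)⁻¹ * tr (gg lam Q * hh lam Q * f)) ≤
      lam * tr (gg lam (f * gg lam Q * f) * (f * (gg lam Q * hh lam Q) * f)) := by
    apply mul_le_mul_of_nonneg_left _ hl0
    linarith
  have h6 : 1 / 2 * tr (gg lam Q * hh lam Q * f) ≤
      lam * (1 + lam)⁻¹ * tr (gg lam Q * hh lam Q * f) := mul_le_mul_of_nonneg_right h4 h3
  rw [← mul_assoc] at h5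
  linarith

/-- upper bound -/
theorem upper {f P : Mt d} (hQ : Q.PosSemidef) (hf : IsPr f) (hP : IsPr P) (hfP : f * P = P)
    (hl : 0 < lam) (h : (P * gg lam Q * P - (1 / 2 : ℂ) • P).PosSemidef) :
    tr f - tr (gg lam Q - gg lam (Q + f)) ≤ (tr f - tr P) + 2 / lam * tr f +
      2 * tr (gg lam Q * hh lam Q * f) := by
  have hl0 : 0 ≤ lam := hl.le
  have hPf : P * f = P := by
    have := congrArg conjTranspose hfP
    rwa [conjTranspose_mul, hP.1, hf.1] at this
  have hgh := gh_psd hQ hl0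
  have hX : (P * gg lam Q * P).PosSemidef := psd_conj (g_psd hQ hl0) hP.1
  have hB : (P * (gg lam Q * hh lam Q) * P).PosSemidef := psd_conj hgh hP.1
  -- `f - P` is a projection
  have hfmP : (f - P).PosSemidef := by
    refine psd_pr ⟨by rw [conjTranspose_sub, hP.1, hf.1], ?_⟩
    have : (f - P) * (f - P) = f * f - f * P - P * f + P * P := by noncomm_ring
    rw [this, hf.2, hP.2, hfP, hPf]; abel
  have k := key hQ hP hl0
  -- monotonicity
  have m1 : tr (gg lam (Q + f)) ≤ tr (gg lam (Q + P)) := by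
    have h1 : (gg lam (Q + P) - gg lam (Q + f)).PosSemidef := by
      refine gg_anti_Q (hQ.add (psd_pr hP)) (hQ.add (psd_pr hf)) hl0 ?_
      have : Q + f - (Q + P) = f - P := by abel
      rwa [this]
    have := tr_nonneg h1
    rw [tr_sub] at this
    linarith
  have m2 : tr P ≤ tr f := by
    have := tr_nonneg hfmP
    rw [tr_sub] at this
    linarith
  -- the inverse of `1 + (lam/2) P`
  obtain ⟨c, hc⟩ : ∃ c : ℝ, c = (1 + lam / 2)⁻¹ := ⟨_, rfl⟩
  have hc1 : c * (1 + lam / 2) = 1 := by rw [hc]; exact inv_mul_cancel₀ (by linarith)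
  have hc0 : 0 < c := by rw [hc]; positivity
  have hcl : c * lam ≤ 2 := by nlinarith
  have hR : ((1 - P) + (c : ℂ) • P - gg lam (P * gg lam Q * P)).PosSemidef := by
    have hcC : (c : ℂ) * (1 + (lam : ℂ) / 2) = 1 := by exact_mod_cast hc1
    have hPP : ∀ z w : ℂ, ((1 - P) + z • P) * ((1 - P) + w • P) = (1 - P) + (z * w) • P := by
      intro z w
      have : ((1 - P) + z • P) * ((1 - P) + w • P) = 1 - P - P + P * P + w • P - w • (P * P)
          + z • P - z • (P * P) + (z * w) • (P * P) := by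
        rw [add_mul, mul_add, mul_add, smul_mul_smul_comm, mul_smul_comm, smul_mul_assoc]
        have h1 : (1 - P) * (1 - P) = 1 - P - P + P * P := by noncomm_ring
        have h2 : (1 - P) * P = P - P * P := by noncomm_ring
        have h3 : P * (1 - P) = P - P * P := by noncomm_ring
        rw [h1, h2, h3, smul_sub, smul_sub]
        abel
      rw [this, hP.2]
      abel
    have hA : 1 + ((lam / 2 : ℝ) : ℂ) • P = (1 - P) + (1 + (lam : ℂ) / 2) • P := by
      rw [add_smul, one_smul]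
      push_cast
      abel
    have hW : ((1 - P) + (c : ℂ) • P).PosSemidef := by
      refine PosSemidef.add ?_ (psd_smul (psd_pr hP) hc0.le)
      refine psd_pr ⟨by rw [conjTranspose_sub, conjTranspose_one, hP.1], ?_⟩
      have : (1 - P) * (1 - P) = 1 - P - P + P * P := by noncomm_ring
      rw [this, hP.2]; abel
    refine inv_anti (A := 1 + ((lam / 2 : ℝ) : ℂ) • P) (B := 1 + (lam : ℂ) • (P * gg lam Q * P))
      ?_ ?_ (g_l hX hl0) (g_r hX hl0) (g_star hX hl0) hW ?_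
    · rw [hA, hPP, hcC, one_smul]; abel
    · rw [hA, hPP, mul_comm, hcC, one_smul]; abel
    · have : 1 + (lam : ℂ) • (P * gg lam Q * P) - (1 + ((lam / 2 : ℝ) : ℂ) • P) =
          (lam : ℂ) • (P * gg lam Q * P - (1 / 2 : ℂ) • P) := by
        rw [smul_sub, smul_smul]
        have : ((lam / 2 : ℝ) : ℂ) = (lam : ℂ) * (1 / 2) := by push_cast; ring
        rw [this]; abel
      rw [this]
      exact psd_smul h hl0
  have u1 : tr (gg lam (P * gg lam Q * P) * P) ≤ c * tr P := by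
    have := tr_mul_nonneg hR (psd_pr hP)
    have e : ((1 - P) + (c : ℂ) • P - gg lam (P * gg lam Q * P)) * P =
        (c : ℂ) • P - gg lam (P * gg lam Q * P) * P := by
      rw [sub_mul, add_mul, sub_mul, one_mul, hP.2, sub_self, zero_add, smul_mul_assoc, hP.2]
    rw [e, tr_sub, tr_smul] at this
    linarith
  have u2 : tr (gg lam (P * gg lam Q * P) * (P * (gg lam Q * hh lam Q) * P)) ≤
      c * tr (P * (gg lam Q * hh lam Q) * P) := by
    have := tr_mul_nonneg hR hB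
    have hPB : P * (P * (gg lam Q * hh lam Q) * P) = P * (gg lam Q * hh lam Q) * P := by
      rw [← mul_assoc, ← mul_assoc, hP.2]
    have e : ((1 - P) + (c : ℂ) • P - gg lam (P * gg lam Q * P)) *
        (P * (gg lam Q * hh lam Q) * P) = (c : ℂ) • (P * (gg lam Q * hh lam Q) * P) -
          gg lam (P * gg lam Q * P) * (P * (gg lam Q * hh lam Q) * P) := by
      rw [sub_mul, add_mul, sub_mul, one_mul, hPB, sub_self, zero_add, smul_mul_assoc, hPB]
    rw [e, tr_sub, tr_smul] at this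
    linarith
  have hBt : tr (P * (gg lam Q * hh lam Q) * P) = tr (gg lam Q * hh lam Q * P) := by
    rw [tr_cyc, ← mul_assoc, hP.2, tr_cyc]
  have hBf : tr (gg lam Q * hh lam Q * P) ≤ tr (gg lam Q * hh lam Q * f) := by
    have := tr_mul_nonneg hgh hfmP
    rw [mul_sub, tr_sub] at this
    linarith
  have hB0 : 0 ≤ tr (gg lam Q * hh lam Q * P) := tr_mul_nonneg hgh (psd_pr hP)
  rw [hBt] at u2
  have hP0 : 0 ≤ tr P := tr_nonneg (psd_pr hP)
  have u3 : c * tr P ≤ 2 / lam * tr f := by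
    have h1 : c ≤ 2 / lam := by rw [le_div_iff₀ hl]; exact hcl
    calc c * tr P ≤ 2 / lam * tr P := mul_le_mul_of_nonneg_right h1 hP0
      _ ≤ 2 / lam * tr f := mul_le_mul_of_nonneg_left m2 (by positivity)
  have u4 : lam * tr (gg lam (P * gg lam Q * P) * (P * (gg lam Q * hh lam Q) * P)) ≤
      2 * tr (gg lam Q * hh lam Q * f) := by
    calc _ ≤ lam * (c * tr (gg lam Q * hh lam Q * P)) := mul_le_mul_of_nonneg_left u2 hl0
      _ = (c * lam) * tr (gg lam Q * hh lam Q * P) := by ring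
      _ ≤ 2 * tr (gg lam Q * hh lam Q * P) := mul_le_mul_of_nonneg_right hcl hB0
      _ ≤ _ := by linarith
  rw [tr_sub] at k ⊢
  linarith

end basic

theorem Qs_succ {d : ℕ} (f : ℕ → Mt d) (i : ℕ) : Qs f (i + 1) = Qs f i + f i := by
  unfold Qs
  rw [Finset.sum_range_succ]

theorem Qs_psd {d : ℕ} (f : ℕ → Mt d) (n : ℕ) (hf : ∀ i < n, IsPr (f i)) :
    ∀ i ≤ n, (Qs f i).PosSemidef := by
  intro i hi
  unfold Qs
  exact posSemidef_sum _ fun j hj => psd_pr (hf j (lt_of_lt_of_le (Finset.mem_range.1 hj) hi))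

/-- the potential -/
noncomputable def DD {d : ℕ} (f : ℕ → Mt d) (n : ℕ) (lam : ℝ) : ℝ :=
  ∑ i ∈ Finset.range n, (tr (f i) - tr (gg lam (Qs f i) - gg lam (Qs f (i + 1))))

theorem DD_eq {d : ℕ} (f : ℕ → Mt d) (n : ℕ) (lam : ℝ) :
    DD f n lam = ∑ i ∈ Finset.range n, tr (f i) - tr (hh lam (Qs f n)) := by
  unfold DD
  rw [Finset.sum_sub_distrib]
  congr 1
  have h1 : ∀ i, tr (gg lam (Qs f i) - gg lam (Qs f (i + 1))) =
      tr (gg lam (Qs f i)) - tr (gg lam (Qs f (i + 1))) := fun i => tr_sub _ _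
  simp only [h1]
  rw [Finset.sum_range_sub']
  unfold hh
  rw [tr_sub]
  congr 2
  unfold Qs gg
  simp

theorem DD_anti {d : ℕ} (f : ℕ → Mt d) (n : ℕ) (hf : ∀ i < n, IsPr (f i)) {lam mu : ℝ}
    (hl : 0 ≤ lam) (h : lam ≤ mu) : DD f n mu ≤ DD f n lam := by
  rw [DD_eq, DD_eq]
  have := tr_nonneg (gg_anti_lam (Qs_psd f n hf n le_rfl) hl h)
  unfold hh
  rw [tr_sub] at this ⊢
  rw [tr_sub]
  linarith

theorem DD_lower {d : ℕ} (f : ℕ → Mt d) (n : ℕ) (hf : ∀ i < n, IsPr (f i)) {lam : ℝ}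
    (hl : 1 ≤ lam) :
    ∑ i ∈ Finset.range n, tr (gg lam (Qs f i) * hh lam (Qs f i) * f i) ≤ 2 * DD f n lam := by
  unfold DD
  rw [Finset.mul_sum]
  apply Finset.sum_le_sum
  intro i hi
  rw [Finset.mem_range] at hi
  have := lower (Qs_psd f n hf i hi.le) (hf i hi) hl
  rw [Qs_succ]
  linarith

theorem DD_nonneg {d : ℕ} (f : ℕ → Mt d) (n : ℕ) (hf : ∀ i < n, IsPr (f i)) {lam : ℝ}
    (hl : 1 ≤ lam) : 0 ≤ DD f n lam := by
  have h1 := DD_lower f n hf hl
  have h2 : 0 ≤ ∑ i ∈ Finset.range n, tr (gg lam (Qs f i) * hh lam (Qs f i) * f i) := by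
    apply Finset.sum_nonneg
    intro i hi
    rw [Finset.mem_range] at hi
    exact tr_mul_nonneg (gh_psd (Qs_psd f n hf i hi.le) (by linarith)) (psd_pr (hf i hi))
  linarith

/-- sum over the scales -/
theorem scales {d : ℕ} {Q f P : Mt d} (M : ℕ) (hQ : Q.PosSemidef) (hf : IsPr f) (hP : IsPr P)
    (hfP : f * P = P) (h : (P * gg (2 ^ M) Q * P - (1 / 2 : ℂ) • P).PosSemidef) :
    ∀ K ≤ M, ∑ m ∈ Finset.range K, (tr f - tr (gg (2 ^ (m + 1)) Q - gg (2 ^ (m + 1)) (Q + f))) ≤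
      K * (tr f - tr P) + 2 * tr f * (1 - (1 / 2) ^ K) +
        4 * (tr (hh (2 ^ K) Q * f) - tr (hh 1 Q * f)) := by
  intro K
  induction K with
  | zero =>
    intro _
    simp
  | succ K ih =>
    intro hK
    rw [Finset.sum_range_succ]
    have h1 := ih (by omega)
    have hlam : (0 : ℝ) < 2 ^ (K + 1) := by positivity
    have hle : (2 : ℝ) ^ (K + 1) ≤ 2 ^ M := pow_le_pow_right₀ (by norm_num) hK
    have h2 : (P * gg (2 ^ (K + 1)) Q * P - (1 / 2 : ℂ) • P).PosSemidef := by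
      have h3 := psd_conj (gg_anti_lam hQ hlam.le hle) hP.1
      have e : P * gg (2 ^ (K + 1)) Q * P - (1 / 2 : ℂ) • P =
          (P * gg (2 ^ M) Q * P - (1 / 2 : ℂ) • P) +
            P * (gg (2 ^ (K + 1)) Q - gg (2 ^ M) Q) * P := by noncomm_ring
      rw [e]
      exact h.add h3
    have h4 := upper hQ hf hP hfP hlam h2
    have h5 := tr_gh_tel (mu := 2 ^ K) hQ (by positivity) (psd_pr hf)
    have e2 : (2 : ℝ) * 2 ^ K = 2 ^ (K + 1) := by ring
    rw [e2] at h5
    have e3 : (2 : ℝ) / 2 ^ (K + 1) * tr f = 2 * tr f * ((1 / 2) ^ K - (1 / 2) ^ (K + 1)) := by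
      rw [one_div, inv_pow, inv_pow, pow_succ]
      field_simp
      ring
    rw [e3] at h4
    push_cast
    linarith

theorem DD_bound {d : ℕ} (f P : ℕ → Mt d) (n M : ℕ) (hf : ∀ i < n, IsPr (f i))
    (hP : ∀ i < n, IsPr (P i) ∧ f i * P i = P i)
    (h : ∀ i < n, Le ((1 / 2 : ℂ) • P i) (P i * gg (2 ^ M) (Qs f i) * P i)) (K : ℕ) (hK : K ≤ M) :
    K * DD f n (2 ^ K) ≤ 6 * (∑ i ∈ Finset.range n, tr (f i)) +
      K * ∑ i ∈ Finset.range n, (tr (f i) - tr (P i)) := by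
  have h1 : K * DD f n (2 ^ K) ≤ ∑ m ∈ Finset.range K, DD f n (2 ^ (m + 1)) := by
    rw [← nsmul_eq_mul, ← Finset.card_range K, ← Finset.sum_const, Finset.card_range]
    apply Finset.sum_le_sum
    intro m hm
    rw [Finset.mem_range] at hm
    exact DD_anti f n hf (by positivity) (pow_le_pow_right₀ (by norm_num) hm)
  refine h1.trans ?_
  unfold DD
  rw [Finset.sum_comm, Finset.mul_sum, Finset.mul_sum, ← Finset.sum_add_distrib]
  apply Finset.sum_le_sum
  intro i hi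
  rw [Finset.mem_range] at hi
  have hQ := Qs_psd f n hf i hi.le
  have h2 := scales M hQ (hf i hi) (hP i hi).1 (hP i hi).2 (h i hi) K hK
  simp only [← Qs_succ] at h2
  refine h2.trans ?_
  have hfi := psd_pr (hf i hi)
  have h3 : 0 ≤ tr (f i) := tr_nonneg hfi
  have h4 : tr (hh (2 ^ K) (Qs f i) * f i) ≤ tr (f i) := by
    have := tr_mul_nonneg (g_psd hQ (lam := 2 ^ K) (by positivity)) hfi
    unfold hh
    rw [sub_mul, one_mul, tr_sub]
    linarith
  have h5 : 0 ≤ tr (hh 1 (Qs f i) * f i) := tr_mul_nonneg (h_psd hQ (by norm_num)) hfi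
  have h6 : 2 * tr (f i) * (1 - (1 / 2) ^ K) ≤ 2 * tr (f i) := by
    have : (0 : ℝ) ≤ (1 / 2) ^ K := by positivity
    nlinarith
  linarith

theorem main : DarP := by
  intro d n M f P hM hf hP h
  have hMR : (2 : ℝ) ≤ M := by exact_mod_cast hM
  obtain ⟨N, hN⟩ : ∃ N, N = ∑ i ∈ Finset.range n, tr (f i) := ⟨_, rfl⟩
  obtain ⟨ν, hν⟩ : ∃ ν, ν = ∑ i ∈ Finset.range n, (tr (f i) - tr (P i)) := ⟨_, rfl⟩
  have hN0 : 0 ≤ N := by
    rw [hN]
    exact Finset.sum_nonneg fun i hi => tr_nonneg (psd_pr (hf i (Finset.mem_range.1 hi)))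
  have b1 := DD_bound f P n M hf hP h M le_rfl
  have b2 := DD_bound f P n M hf hP h (M - 1) (by omega)
  have hcast : ((M - 1 : ℕ) : ℝ) = (M : ℝ) - 1 := by
    rw [Nat.cast_sub (by omega), Nat.cast_one]
  rw [← hN, ← hν] at b1 b2 ⊢
  rw [hcast] at b2
  have one_le : ∀ k : ℕ, (1 : ℝ) ≤ 2 ^ k := fun k => one_le_pow₀ (by norm_num)
  constructor
  · have h1 := DD_lower f n hf (one_le M)
    have h2 : DD f n (2 ^ M) ≤ 6 / M * N + ν := by
      have e : 6 / (M : ℝ) * N + ν = (6 * N + M * ν) / M := by field_simp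
      rw [e, le_div_iff₀ (by linarith)]
      linarith
    have h3 : 2 * (6 / (M : ℝ) * N) ≤ 20 / M * N := by
      have : 2 * (6 / (M : ℝ) * N) = 12 / M * N := by ring
      rw [this]
      gcongr
      norm_num
    linarith
  · have hM1 : (0 : ℝ) < M - 1 := by linarith
    have h2 : DD f n (2 ^ (M - 1)) ≤ 6 / (M - 1) * N + ν := by
      have e : 6 / ((M : ℝ) - 1) * N + ν = (6 * N + (M - 1) * ν) / (M - 1) := by field_simp
      rw [e, le_div_iff₀ hM1]
      linarith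
    have h3 : 2 * (6 / ((M : ℝ) - 1) * N) ≤ 20 / (M - 1) * N := by
      have : 2 * (6 / ((M : ℝ) - 1) * N) = 12 / (M - 1) * N := by ring
      rw [this]
      gcongr
      norm_num
    have h4 := tr_gh_tel (mu := 2 ^ (M - 1)) (F := (1 : Mt d)) (Qs_psd f n hf n le_rfl)
      (by positivity) PosSemidef.one
    have e2 : (2 : ℝ) * 2 ^ (M - 1) = 2 ^ M := by
      rw [← pow_succ']
      congr 1
      omega
    rw [e2, mul_one, mul_one, mul_one] at h4
    have h5 := DD_eq f n (2 ^ M)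
    have h6 := DD_eq f n (2 ^ (M - 1))
    have h7 := DD_nonneg f n hf (one_le M)
    linarith

end Pool.Agent.W179.RC
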